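import Mathlib

/-!
# Integral closure of integer-valued polynomials on algebras

For every integrally closed domain `D` with fraction field `K` and every `D`-algebra `A` that is
finitely generated as a `D`-module, `Int_K(A,A')` is the integral closure of `Int_K(A)`.
-/

open Polynomial TensorProduct

namespace Pool.Agent.Results.MP_457b0e_al.IntegralClosure

universe u v w

section Univ

/-- A universal monic integer polynomial. -/
theorem univ (E : ℤ[X]) (hE : E.Monic) (n : ℕ) :
    ∃ F : ℤ[X], F.Monic ∧ F.natDegree ≠ 0 ∧ ∀ (R : Type u) [CommRing R],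
      (∀ t : R, aeval t E = 0) → ∀ χ : R[X], χ.Monic → χ.natDegree = n →
        χ ∣ F.map (Int.castRingHom R) := by
  classical
  set I : Ideal (MvPolynomial (Fin n) ℤ) :=
    Ideal.span (Set.range fun i : Fin n => aeval (MvPolynomial.X i : MvPolynomial (Fin n) ℤ) E)
    with hI
  let R0 := MvPolynomial (Fin n) ℤ ⧸ I
  have hX : ∀ i : Fin n, IsIntegral ℤ (Ideal.Quotient.mk I (MvPolynomial.X i)) := by
    intro i
    refine ⟨E, hE, ?_⟩
    have h1 : aeval (Ideal.Quotient.mk I (MvPolynomial.X i)) E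
        = Ideal.Quotient.mk I (aeval (MvPolynomial.X i : MvPolynomial (Fin n) ℤ) E) := by
      rw [aeval_def, aeval_def, Polynomial.hom_eval₂]
      congr 1
    have h2 : Ideal.Quotient.mk I (aeval (MvPolynomial.X i : MvPolynomial (Fin n) ℤ) E) = 0 :=
      Ideal.Quotient.eq_zero_iff_mem.mpr (Ideal.subset_span ⟨i, rfl⟩)
    rw [← aeval_def, h1, h2]
  have hint : ∀ r : R0, IsIntegral ℤ r := by
    intro r
    obtain ⟨p, rfl⟩ := Ideal.Quotient.mk_surjective r
    induction p using MvPolynomial.induction_on with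
    | C a =>
      have : Ideal.Quotient.mk I (MvPolynomial.C a) = algebraMap ℤ R0 a := by
        simp
      rw [this]
      exact isIntegral_algebraMap
    | add p q hp hq => rw [map_add]; exact hp.add hq
    | mul_X p i hp => rw [map_mul]; exact hp.mul (hX i)
  have : Algebra.IsIntegral ℤ R0 := ⟨hint⟩
  set g : Fin n → R0 := fun i => Ideal.Quotient.mk I (MvPolynomial.X i) with hg
  set χ0 : R0[X] := X ^ n + ∑ i : Fin n, C (g i) * X ^ (i : ℕ) with hχ0
  have hmon : χ0.Monic := monic_X_pow_add (degree_sum_fin_lt g)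
  have hy : IsIntegral R0 (AdjoinRoot.root χ0) := ⟨χ0, hmon, AdjoinRoot.eval₂_root χ0⟩
  have hyZ : IsIntegral ℤ (AdjoinRoot.root χ0) := isIntegral_trans _ hy
  obtain ⟨F0, hF0, hF0'⟩ := hyZ
  refine ⟨X * F0, monic_X.mul hF0, ?_, ?_⟩
  · rw [Polynomial.natDegree_X_mul hF0.ne_zero]
    omega
  intro R _ hR χ hχ hdeg
  have hdvd0 : χ0 ∣ F0.map (Int.castRingHom R0) := by
    rw [← AdjoinRoot.mk_eq_zero]
    rw [← AdjoinRoot.aeval_eq, aeval_def, eval₂_map]
    rw [← hF0']
    congr 1
  let φ : R0 →+* R := Ideal.Quotient.lift I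
    (MvPolynomial.eval₂Hom (Int.castRingHom R) (fun i : Fin n => χ.coeff i)) (by
      intro a ha
      have : I ≤ RingHom.ker (MvPolynomial.eval₂Hom (Int.castRingHom R)
          (fun i : Fin n => χ.coeff i)) := by
        rw [hI, Ideal.span_le]
        rintro _ ⟨i, rfl⟩
        simp only [SetLike.mem_coe, RingHom.mem_ker]
        rw [aeval_def, Polynomial.hom_eval₂]
        have h3 := hR (χ.coeff i)
        rw [aeval_def] at h3
        rw [← h3]
        congr 1
        · exact Subsingleton.elim _ _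
        · simp
      exact this ha)
  have hφg : ∀ i : Fin n, φ (g i) = χ.coeff i := by
    intro i
    have h3 : φ (g i) = MvPolynomial.eval₂Hom (Int.castRingHom R) (fun i : Fin n => χ.coeff i)
        (MvPolynomial.X i) := rfl
    rw [h3]
    simp
  have hmap : χ0.map φ = χ := by
    rw [hχ0]
    simp only [Polynomial.map_add, Polynomial.map_pow, Polynomial.map_X, Polynomial.map_sum,
      Polynomial.map_mul, Polynomial.map_C, hφg]
    conv_rhs => rw [hχ.as_sum, hdeg]
    congr 1
    exact Fin.sum_univ_eq_sum_range (fun i => C (χ.coeff i) * X ^ i) n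
  have h4 : χ ∣ F0.map (Int.castRingHom R) := by
    have h5 := Polynomial.map_dvd φ hdvd0
    rw [hmap, Polynomial.map_map] at h5
    have h6 : φ.comp (Int.castRingHom R0) = Int.castRingHom R := Subsingleton.elim _ _
    rwa [h6] at h5
  rw [Polynomial.map_mul]
  exact Dvd.dvd.mul_left h4 _

end Univ

section Vandermonde

variable {D : Type u} {K : Type v} [CommRing D] [Field K] [Algebra D K]

theorem vand {f : K[X]} {m : ℕ} (hm : f.natDegree ≤ m)
    (hf : ∀ d : D, ∃ e : D, f.eval (algebraMap D K d) = algebraMap D K e)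
    (v : Fin (m + 1) → D) (k : ℕ) :
    ∃ e : D, algebraMap D K (Matrix.vandermonde v).det * f.coeff k = algebraMap D K e := by
  classical
  choose e he using fun i => hf (v i)
  by_cases hk : k < m + 1
  · let M : Matrix (Fin (m + 1)) (Fin (m + 1)) K := (Matrix.vandermonde v).map (algebraMap D K)
    let c : Fin (m + 1) → K := fun j => f.coeff j
    have hMc : M.mulVec c = fun i => algebraMap D K (e i) := by
      funext i
      rw [← he i, Polynomial.eval_eq_sum_range' (Nat.lt_succ_of_le hm)]
      simp only [Matrix.mulVec, dotProduct, M, c, Matrix.map_apply, Matrix.vandermonde_apply,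
        map_pow]
      rw [← Fin.sum_univ_eq_sum_range (fun j => f.coeff j * (algebraMap D K (v i)) ^ j) (m + 1)]
      exact Finset.sum_congr rfl fun j _ => mul_comm _ _
    have h1 : (M.adjugate * M).mulVec c = M.det • c := by
      rw [Matrix.adjugate_mul, Matrix.smul_mulVec, Matrix.one_mulVec]
    rw [← Matrix.mulVec_mulVec, hMc] at h1
    have h2 := congrFun h1 ⟨k, hk⟩
    have h3 : M.adjugate = (Matrix.vandermonde v).adjugate.map (algebraMap D K) :=
      ((algebraMap D K).map_adjugate (Matrix.vandermonde v)).symm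
    have h4 : M.det = algebraMap D K (Matrix.vandermonde v).det :=
      ((algebraMap D K).map_det (Matrix.vandermonde v)).symm
    refine ⟨∑ i, (Matrix.vandermonde v).adjugate ⟨k, hk⟩ i * e i, ?_⟩
    rw [← h4]
    simp only [Pi.smul_apply, smul_eq_mul, c] at h2
    rw [← h2, h3]
    simp only [Matrix.mulVec, dotProduct, Matrix.map_apply, map_sum, map_mul]
  · refine ⟨0, ?_⟩
    rw [Polynomial.coeff_eq_zero_of_natDegree_lt (by omega)]
    simp

/-- the polynomial `∏_{i<j≤m} (X^j - X^i)` -/
noncomputable def Em (m : ℕ) : ℤ[X] :=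
  ∏ i : Fin (m + 1), ∏ j ∈ Finset.Ioi i, (X ^ (j : ℕ) - X ^ (i : ℕ))

theorem Em_monic (m : ℕ) : (Em m).Monic := by
  unfold Em
  refine monic_prod_of_monic _ _ fun i _ => monic_prod_of_monic _ _ fun j hj => ?_
  refine monic_X_pow_sub ?_
  rw [degree_X_pow]
  have : (i : ℕ) < (j : ℕ) := by simpa using hj
  exact_mod_cast this

theorem aeval_Em (m : ℕ) (t : D) :
    aeval t (Em m) = (Matrix.vandermonde (fun i : Fin (m + 1) => t ^ (i : ℕ))).det := by
  rw [Matrix.det_vandermonde, Em]
  simp [map_prod]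

end Vandermonde

variable (D : Type u) (K : Type v) (A : Type w) [CommRing D] [Field K] [Algebra D K] [Ring A]
  [Algebra D A]

/-- The ring `Int_K(A) = {f ∈ K[X] : f(A) ⊆ A}`, where `A` is viewed in `B = K ⊗_D A`
through `a ↦ 1 ⊗ a`. -/
def IntK : Subring K[X] where
  carrier := {f | ∀ a : A, ∃ a' : A, aeval ((1 : K) ⊗ₜ[D] a) f = (1 : K) ⊗ₜ[D] a'}
  mul_mem' := by
    intro f g hf hg a
    obtain ⟨b, hb⟩ := hf a
    obtain ⟨c, hc⟩ := hg a
    exact ⟨b * c, by rw [map_mul, hb, hc]; simp⟩
  one_mem' := fun a => ⟨1, by rw [map_one]; rfl⟩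
  add_mem' := by
    intro f g hf hg a
    obtain ⟨b, hb⟩ := hf a
    obtain ⟨c, hc⟩ := hg a
    exact ⟨b + c, by rw [map_add, hb, hc, TensorProduct.tmul_add]⟩
  zero_mem' := fun a => ⟨0, by rw [map_zero, TensorProduct.tmul_zero]⟩
  neg_mem' := by
    intro f hf a
    obtain ⟨b, hb⟩ := hf a
    exact ⟨-b, by rw [map_neg, hb, TensorProduct.tmul_neg]⟩

/-- `f ∈ Int_K(A,A')`, that is `f(A) ⊆ A'`, where `A'` is the set of all elements of
`B = K ⊗_D A` that are integral over `D`. -/
def InIntK' (f : K[X]) : Prop :=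
  ∀ a : A, IsIntegral D (aeval ((1 : K) ⊗ₜ[D] a) f)

variable {D K A}

theorem aeval_lift (a : A) (p : D[X]) :
    aeval ((1 : K) ⊗ₜ[D] a) (p.map (algebraMap D K)) = (1 : K) ⊗ₜ[D] (aeval a p) := by
  have h1 : aeval ((1 : K) ⊗ₜ[D] a) (p.map (algebraMap D K)) = aeval ((1 : K) ⊗ₜ[D] a) p := by
    rw [Polynomial.aeval_map_algebraMap]
  rw [h1]
  have h2 := Polynomial.aeval_algHom_apply
    (Algebra.TensorProduct.includeRight : A →ₐ[D] K ⊗[D] A) a p
  simpa using h2

/-- Main direction. -/
theorem main [IsDomain D] [IsIntegrallyClosed D] [IsFractionRing D K] [Module.Finite D A]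
    [Nontrivial (K ⊗[D] A)] (f : K[X]) (hf : InIntK' D K A f) :
    ∃ F : ℤ[X], F.Monic ∧ F.natDegree ≠ 0 ∧ aeval f F ∈ IntK D K A := by
  classical
  have hinj : Function.Injective (algebraMap D K) := IsFractionRing.injective D K
  -- `f(D) ⊆ D`
  have hfD : ∀ d : D, ∃ e : D, f.eval (algebraMap D K d) = algebraMap D K e := by
    intro d
    have h1 := hf (algebraMap D A d)
    have h2 : (1 : K) ⊗ₜ[D] (algebraMap D A d) = algebraMap K (K ⊗[D] A) (algebraMap D K d) := by
      rw [← IsScalarTower.algebraMap_apply D K (K ⊗[D] A)]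
      exact (Algebra.TensorProduct.includeRight : A →ₐ[D] K ⊗[D] A).commutes d
    rw [h2, Polynomial.aeval_algebraMap_apply] at h1
    rw [isIntegral_algebraMap_iff (algebraMap K (K ⊗[D] A)).injective] at h1
    obtain ⟨e, he⟩ := IsIntegrallyClosed.isIntegral_iff.mp h1
    exact ⟨e, by rw [he]; simp⟩
  set n := Module.finrank K (K ⊗[D] A) with hn
  have hnpos : 0 < n := Module.finrank_pos
  -- the conductor ideal
  let c : Ideal D :=
    { carrier := {d | ∀ k < n, ∀ i, ∃ e : D, algebraMap D K d * (f ^ k).coeff i = algebraMap D K e}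
      add_mem' := by
        intro x y hx hy k hk i
        obtain ⟨e, he⟩ := hx k hk i
        obtain ⟨e', he'⟩ := hy k hk i
        exact ⟨e + e', by rw [map_add, add_mul, he, he', map_add]⟩
      zero_mem' := fun k _ i => ⟨0, by simp⟩
      smul_mem' := by
        intro r x hx k hk i
        obtain ⟨e, he⟩ := hx k hk i
        exact ⟨r * e, by rw [smul_eq_mul, map_mul, mul_assoc, he, map_mul]⟩ }
  set m := n * f.natDegree with hm
  have hE : ∀ t : D, aeval t (Em m) ∈ c := by
    intro t k hk i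
    rw [aeval_Em]
    refine vand ?_ ?_ _ i
    · refine (natDegree_pow_le).trans ?_
      exact Nat.mul_le_mul_right _ hk.le
    · intro d
      obtain ⟨e, he⟩ := hfD d
      exact ⟨e ^ k, by rw [eval_pow, he, map_pow]⟩
  have hR : ∀ t : D ⧸ c, aeval t (Em m) = 0 := by
    intro t
    obtain ⟨t, rfl⟩ := Ideal.Quotient.mk_surjective t
    have h1 : aeval (Ideal.Quotient.mk c t) (Em m) = Ideal.Quotient.mk c (aeval t (Em m)) := by
      rw [aeval_def, aeval_def, Polynomial.hom_eval₂]
      congr 1
    rw [h1, Ideal.Quotient.eq_zero_iff_mem]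
    exact hE t
  obtain ⟨F, hF, hFdeg, hFR⟩ := univ.{u} (Em m) (Em_monic m) n
  refine ⟨F, hF, hFdeg, ?_⟩
  intro a
  set b := aeval ((1 : K) ⊗ₜ[D] a) f with hb
  -- a monic polynomial of degree `n` over `D` killing `b`
  obtain ⟨χ, hχ, hχdeg, hχb⟩ : ∃ χ : D[X], χ.Monic ∧ χ.natDegree = n ∧ aeval b χ = 0 := by
    obtain ⟨h, hh, hhb⟩ := hf a
    have hbK : IsIntegral K b := IsIntegral.of_finite K b
    have hdvd : minpoly K b ∣ h.map (algebraMap D K) := by
      apply minpoly.dvd
      rw [Polynomial.aeval_map_algebraMap, aeval_def]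
      exact hhb
    obtain ⟨g', hg'⟩ := IsIntegrallyClosed.eq_map_mul_C_of_dvd K hh hdvd
    rw [(minpoly.monic hbK).leadingCoeff, C_1, mul_one] at hg'
    have hg'm : g'.Monic := monic_of_injective hinj (by rw [hg']; exact minpoly.monic hbK)
    have hdeg : g'.natDegree ≤ n := by
      have : g'.natDegree = (minpoly K b).natDegree := by
        rw [← hg', natDegree_map_eq_of_injective hinj]
      rw [this]
      exact minpoly.natDegree_le b
    refine ⟨g' * X ^ (n - g'.natDegree), hg'm.mul (monic_X_pow _), ?_, ?_⟩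
    · rw [hg'm.natDegree_mul (monic_X_pow _), natDegree_X_pow]
      omega
    · rw [map_mul]
      have : aeval b g' = 0 := by
        rw [← Polynomial.aeval_map_algebraMap K, hg']
        exact minpoly.aeval K b
      rw [this, zero_mul]
  set r := F.map (Int.castRingHom D) %ₘ χ with hr
  have hrc : ∀ k, r.coeff k ∈ c := by
    intro k
    have h1 : r.map (Ideal.Quotient.mk c) = 0 := by
      rw [hr, Polynomial.map_modByMonic _ hχ, Polynomial.map_map]
      have h2 : (Ideal.Quotient.mk c).comp (Int.castRingHom D) = Int.castRingHom (D ⧸ c) :=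
        Subsingleton.elim _ _
      rw [h2, Polynomial.modByMonic_eq_zero_iff_dvd (hχ.map _)]
      by_cases hc : Nontrivial (D ⧸ c)
      · refine hFR (D ⧸ c) hR _ (hχ.map _) ?_
        rw [hχ.natDegree_map, hχdeg]
      · rw [not_nontrivial_iff_subsingleton] at hc
        exact ⟨0, Subsingleton.elim _ _⟩
    have h3 : (r.map (Ideal.Quotient.mk c)).coeff k = 0 := by rw [h1]; simp
    rw [coeff_map] at h3
    exact Ideal.Quotient.eq_zero_iff_mem.mp h3
  have hFb : aeval b F = aeval b r := by
    have h1 : aeval b F = aeval b (F.map (Int.castRingHom D)) := by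
      have := Polynomial.aeval_map_algebraMap D b F
      rw [← this]
      congr 1
    rw [h1]
    conv_lhs => rw [← Polynomial.modByMonic_add_div (F.map (Int.castRingHom D)) χ]
    rw [map_add, map_mul, hχb, zero_mul, add_zero]
  have hrdeg : r.natDegree < n := by
    rw [← hχdeg]
    refine natDegree_modByMonic_lt _ hχ ?_
    intro h
    rw [h, natDegree_one] at hχdeg
    omega
  have hterm : ∀ k < n, ∃ a' : A, r.coeff k • b ^ k = (1 : K) ⊗ₜ[D] a' := by
    intro k hk
    have h1 := hrc k k hk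
    have h2 : C (algebraMap D K (r.coeff k)) * f ^ k ∈ Polynomial.lifts (algebraMap D K) := by
      rw [Polynomial.lifts_iff_coeff_lifts]
      intro i
      rw [coeff_C_mul]
      obtain ⟨e, he⟩ := h1 i
      exact ⟨e, he.symm⟩
    obtain ⟨p, hp⟩ := (Polynomial.mem_lifts _).mp h2
    refine ⟨aeval a p, ?_⟩
    rw [← aeval_lift (K := K), hp, map_mul, map_pow, aeval_C, ← hb, Algebra.smul_def,
      IsScalarTower.algebraMap_apply D K (K ⊗[D] A)]
  have hsum : aeval b r = ∑ k ∈ Finset.range n, r.coeff k • b ^ k :=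
    Polynomial.aeval_eq_sum_range' hrdeg b
  have hcomp : aeval ((1 : K) ⊗ₜ[D] a) (aeval f F) = aeval b F := by
    have h1 := Polynomial.hom_eval₂ F (algebraMap ℤ K[X])
      ((aeval ((1 : K) ⊗ₜ[D] a) : K[X] →ₐ[K] K ⊗[D] A) : K[X] →+* K ⊗[D] A) f
    rw [hb, aeval_def (R := ℤ), aeval_def (R := ℤ)]
    have h2 : ((aeval ((1 : K) ⊗ₜ[D] a) : K[X] →ₐ[K] K ⊗[D] A) : K[X] →+* K ⊗[D] A).comp
        (algebraMap ℤ K[X]) = algebraMap ℤ (K ⊗[D] A) := Subsingleton.elim _ _
    rw [h2] at h1
    exact h1
  rw [hcomp, hFb, hsum]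
  choose! a' ha' using hterm
  refine ⟨∑ k ∈ Finset.range n, a' k, ?_⟩
  rw [TensorProduct.tmul_sum]
  exact Finset.sum_congr rfl fun k hk => ha' k (Finset.mem_range.mp hk)

/-- Elements of `K[X]` integral over `Int_K(A)` lie in `Int_K(A,A')`. -/
theorem conv [Module.Finite D A] (f : K[X]) (hf : IsIntegral (IntK D K A) f) :
    InIntK' D K A f := by
  intro a
  set ev : K[X] →ₐ[D] K ⊗[D] A := (aeval ((1 : K) ⊗ₜ[D] a)).restrictScalars D with hev
  let Q := K[X] ⧸ RingHom.ker (ev : K[X] →+* K ⊗[D] A)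
  let j : Q →ₐ[D] K ⊗[D] A := Ideal.kerLiftAlg ev
  have hj : Function.Injective j := Ideal.kerLiftAlg_injective ev
  have hjmk : ∀ g : K[X], j (Ideal.Quotient.mk _ g) = aeval ((1 : K) ⊗ₜ[D] a) g := fun g => rfl
  rw [← hjmk, isIntegral_algHom_iff j hj]
  have hIntK : ∀ g ∈ IntK D K A, IsIntegral D (Ideal.Quotient.mk _ g : Q) := by
    intro g hg
    rw [← isIntegral_algHom_iff j hj, hjmk]
    obtain ⟨a', ha'⟩ := hg a
    rw [ha']
    exact (IsIntegral.of_finite D a').map
      (Algebra.TensorProduct.includeRight : A →ₐ[D] K ⊗[D] A)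
  obtain ⟨p, hp, hpf⟩ := hf
  -- map the coefficients into the integral closure of `D` in `Q`
  let ψ : IntK D K A →+* integralClosure D Q :=
    { toFun := fun g => ⟨Ideal.Quotient.mk _ g.1, hIntK g.1 g.2⟩
      map_one' := rfl
      map_mul' := fun _ _ => rfl
      map_zero' := rfl
      map_add' := fun _ _ => rfl }
  have hC : IsIntegral (integralClosure D Q) (Ideal.Quotient.mk _ f : Q) := by
    refine ⟨p.map ψ, hp.map ψ, ?_⟩
    rw [eval₂_map]
    have h1 := congrArg (Ideal.Quotient.mk (RingHom.ker (ev : K[X] →+* K ⊗[D] A))) hpf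
    rw [Polynomial.hom_eval₂, map_zero] at h1
    exact h1
  exact isIntegral_trans _ hC

/-- Let `D` be an integrally closed domain with fraction field `K` and let `A` be a torsion-free
`D`-algebra, finitely generated as a `D`-module. An element `φ` of `K(X)` is integral over
`Int_K(A)` if and only if it is a polynomial in `Int_K(A,A')`; that is, `Int_K(A,A')` is the
integral closure of `Int_K(A)`. -/
theorem result (D : Type u) (K : Type v) (A : Type w) [CommRing D] [IsDomain D]
    [IsIntegrallyClosed D] [Field K] [Algebra D K] [IsFractionRing D K] [Ring A] [Algebra D A]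
    [Module.Finite D A] (φ : RatFunc K) :
    IsIntegral (IntK D K A) φ ↔ ∃ f : K[X], InIntK' D K A f ∧ algebraMap K[X] (RatFunc K) f = φ := by
  constructor
  · intro hφ
    have h1 : IsIntegral K[X] φ := by
      obtain ⟨p, hp, hpf⟩ := hφ
      refine ⟨p.map (IntK D K A).subtype, hp.map _, ?_⟩
      rw [eval₂_map]
      exact hpf
    obtain ⟨f, hf⟩ := IsIntegrallyClosed.isIntegral_iff.mp h1
    refine ⟨f, conv f ?_, hf⟩
    rw [← hf] at hφ
    exact (isIntegral_algebraMap_iff (IsFractionRing.injective K[X] (RatFunc K))).mp hφ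
  · rintro ⟨f, hf, rfl⟩
    refine (isIntegral_algebraMap_iff (IsFractionRing.injective K[X] (RatFunc K))).mpr ?_
    by_cases hB : Nontrivial (K ⊗[D] A)
    · obtain ⟨F, hF, hFdeg, hmem⟩ := main f hf
      refine IsIntegral.of_aeval_monic (p := F.map (Int.castRingHom (IntK D K A))) (hF.map _) ?_ ?_
      · rw [hF.natDegree_map]
        exact hFdeg
      · have h2 : aeval f (F.map (Int.castRingHom (IntK D K A))) = aeval f F := by
          have := Polynomial.aeval_map_algebraMap (IntK D K A) f F
          rw [← this]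
          congr 1
        rw [h2]
        exact isIntegral_algebraMap (R := IntK D K A) (x := ⟨_, hmem⟩)
    · rw [not_nontrivial_iff_subsingleton] at hB
      have hmem : f ∈ IntK D K A := fun a => ⟨0, Subsingleton.elim _ _⟩
      exact isIntegral_algebraMap (R := IntK D K A) (x := ⟨f, hmem⟩)

end Pool.Agent.Results.MP_457b0e_al.IntegralClosure
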